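import Mathlib

/-!
# Decomposing odd-regular graphs into 2-regular subgraphs and edges (MP_b4b0f8_co)
-/

namespace Pool.Agent.Results.MP_b4b0f8_co.OddRegular

open Finset

section signs

/-- indicator -/
def dl {V : Type} [DecidableEq V] (x v : V) : ℤ := if x = v then 1 else 0

/-- a multigraph with all degrees even has a balanced orientation -/
lemma exists_signs {ι V : Type} [DecidableEq ι] [DecidableEq V] : ∀ (m : ℕ) (S : Finset ι)
    (a b : ι → V), S.card = m → (∀ v, Even (∑ i ∈ S, (dl (a i) v + dl (b i) v))) →
    ∃ s : ι → ℤ, (∀ i, s i = 1 ∨ s i = -1) ∧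
      ∀ v, ∑ i ∈ S, s i * (dl (a i) v - dl (b i) v) = 0 := by
  intro m
  induction m with
  | zero =>
    intro S a b hS _
    rw [card_eq_zero] at hS
    subst hS
    exact ⟨fun _ => 1, fun _ => Or.inl rfl, fun v => by simp⟩
  | succ m ih =>
    intro S a b hS hev
    obtain ⟨i, hi⟩ : S.Nonempty := by
      rw [← card_pos]
      omega
    by_cases hab : a i = b i
    · obtain ⟨s, hs1, hs2⟩ := ih (S.erase i) a b (by rw [card_erase_of_mem hi, hS]; rfl) (by
        intro v
        have h1 := hev v
        rw [← add_sum_erase _ _ hi, hab] at h1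
        have h2 : Even (dl (b i) v + dl (b i) v) := ⟨_, rfl⟩
        exact (Int.even_add.1 h1).1 h2)
      refine ⟨s, hs1, fun v => ?_⟩
      rw [← add_sum_erase _ _ hi, hs2 v, hab]
      ring
    · -- a second edge at `b i`
      have hex : ∃ j ∈ S.erase i, ¬ Even (dl (a j) (b i) + dl (b j) (b i)) := by
        by_contra hcon
        push Not at hcon
        have h1 := hev (b i)
        rw [← add_sum_erase _ _ hi] at h1
        have h2 : Even (∑ j ∈ S.erase i, (dl (a j) (b i) + dl (b j) (b i))) :=
          Finset.even_sum _ hcon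
        have h3 := (Int.even_add.1 h1).2 h2
        have h4 : dl (a i) (b i) + dl (b i) (b i) = 1 := by
          simp [dl, hab]
        rw [h4] at h3
        exact absurd h3 (by decide)
      obtain ⟨j, hj, hodd⟩ := hex
      rw [mem_erase] at hj
      obtain ⟨hji, hjS⟩ := hj
      obtain ⟨c, σ, hσ, hc1, hc2⟩ : ∃ (c : V) (σ : ℤ), (σ = 1 ∨ σ = -1) ∧
          (∀ v, dl (a j) v + dl (b j) v = dl (b i) v + dl c v) ∧
          (∀ v, σ * (dl (a j) v - dl (b j) v) = dl (b i) v - dl c v) := by
        by_cases h1 : a j = b i
        · refine ⟨b j, 1, Or.inl rfl, fun v => ?_, fun v => ?_⟩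
          · rw [h1]
          · rw [h1, one_mul]
        · by_cases h2 : b j = b i
          · refine ⟨a j, -1, Or.inr rfl, fun v => ?_, fun v => ?_⟩
            · rw [h2]; ring
            · rw [h2]; ring
          · exfalso
            apply hodd
            simp [dl, h1, h2]
      have hiS : i ∈ S.erase j := by
        rw [mem_erase]
        exact ⟨hji.symm, hi⟩
      have hrest : ∀ (f : ι → V) (l : ι), l ∈ (S.erase j).erase i → Function.update b i c l = b l := by
        intro _ l hl
        rw [mem_erase] at hl
        rw [Function.update_of_ne hl.1]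
      obtain ⟨s, hs1, hs2⟩ := ih (S.erase j) a (Function.update b i c)
        (by rw [card_erase_of_mem hjS, hS]; rfl) (by
          intro v
          have h1 := hev v
          rw [← add_sum_erase _ _ hjS, ← add_sum_erase _ _ hiS] at h1
          rw [← add_sum_erase _ _ hiS]
          have h2 : ∑ l ∈ (S.erase j).erase i, (dl (a l) v + dl (Function.update b i c l) v) =
              ∑ l ∈ (S.erase j).erase i, (dl (a l) v + dl (b l) v) := by
            apply Finset.sum_congr rfl
            intro l hl
            rw [hrest b l hl]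
          rw [h2, Function.update_self]
          rw [hc1 v] at h1
          have h3 : dl (b i) v + dl c v + (dl (a i) v + dl (b i) v +
              ∑ l ∈ (S.erase j).erase i, (dl (a l) v + dl (b l) v)) =
              (dl (b i) v + dl (b i) v) + (dl (a i) v + dl c v +
                ∑ l ∈ (S.erase j).erase i, (dl (a l) v + dl (b l) v)) := by ring
          rw [h3] at h1
          exact (Int.even_add.1 h1).1 ⟨_, rfl⟩)
      refine ⟨Function.update s j (σ * s i), ?_, ?_⟩
      · intro l
        by_cases hl : l = j
        · subst hl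
          rw [Function.update_self]
          rcases hσ with rfl | rfl <;> rcases hs1 i with h | h <;> rw [h] <;> norm_num
        · rw [Function.update_of_ne hl]
          exact hs1 l
      · intro v
        rw [← add_sum_erase _ _ hjS, Function.update_self]
        have h1 : ∑ l ∈ S.erase j, Function.update s j (σ * s i) l * (dl (a l) v - dl (b l) v) =
            ∑ l ∈ S.erase j, s l * (dl (a l) v - dl (b l) v) := by
          apply Finset.sum_congr rfl
          intro l hl
          rw [mem_erase] at hl
          rw [Function.update_of_ne hl.1]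
        rw [h1, ← add_sum_erase _ _ hiS]
        have h2 := hs2 v
        rw [← add_sum_erase _ _ hiS, Function.update_self] at h2
        have h3 : ∑ l ∈ (S.erase j).erase i, s l * (dl (a l) v - dl (Function.update b i c l) v) =
            ∑ l ∈ (S.erase j).erase i, s l * (dl (a l) v - dl (b l) v) := by
          apply Finset.sum_congr rfl
          intro l hl
          rw [hrest b l hl]
        rw [h3] at h2
        have h4 := hc2 v
        linear_combination h2 + s i * h4

end signs

section perms

variable {V : Type} [Fintype V] [DecidableEq V]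

/-- a nonnegative integer matrix with constant line sums is a sum of permutation matrices -/
lemma perm_decomp : ∀ (k : ℕ) (M : V → V → ℕ), (∀ u, ∑ v, M u v = k) → (∀ v, ∑ u, M u v = k) →
    ∃ σ : Fin k → Equiv.Perm V, ∀ u v, M u v = (univ.filter fun i => σ i u = v).card := by
  intro k
  induction k with
  | zero =>
    intro M hr _
    refine ⟨fun i => i.elim0, fun u v => ?_⟩
    have h1 := hr u
    rw [Finset.sum_eq_zero_iff] at h1
    rw [h1 v (mem_univ v)]
    simp
  | succ k ih =>
    intro M hr hc
    have hall : ∀ A : Finset V, A.card ≤ (A.biUnion fun u => univ.filter fun v => M u v ≠ 0).card := by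
      intro A
      set B := A.biUnion fun u => univ.filter fun v => M u v ≠ 0 with hB
      have h1 : ∑ u ∈ A, ∑ v, M u v = A.card * (k + 1) := by
        rw [Finset.sum_congr rfl (fun u _ => hr u), sum_const, smul_eq_mul]
      have h2 : ∑ v ∈ B, ∑ u, M u v = B.card * (k + 1) := by
        rw [Finset.sum_congr rfl (fun u _ => hc u), sum_const, smul_eq_mul]
      have h3 : ∑ u ∈ A, ∑ v, M u v = ∑ u ∈ A, ∑ v ∈ B, M u v := by
        apply Finset.sum_congr rfl
        intro u hu
        symm
        apply Finset.sum_subset (subset_univ _)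
        intro v _ hv
        by_contra hne
        apply hv
        rw [hB, mem_biUnion]
        exact ⟨u, hu, by rw [mem_filter]; exact ⟨mem_univ _, hne⟩⟩
      have h4 : ∑ u ∈ A, ∑ v ∈ B, M u v ≤ ∑ v ∈ B, ∑ u, M u v := by
        rw [Finset.sum_comm]
        apply Finset.sum_le_sum
        intro v _
        exact Finset.sum_le_sum_of_subset (subset_univ _)
      have h5 : A.card * (k + 1) ≤ B.card * (k + 1) := by
        rw [← h1, ← h2, h3]
        exact h4
      exact Nat.le_of_mul_le_mul_right h5 (Nat.succ_pos k)
    obtain ⟨f, hf1, hf2⟩ := (Finset.all_card_le_biUnion_card_iff_exists_injective _).1 hall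
    set τ : Equiv.Perm V := Equiv.ofBijective f (Finite.injective_iff_bijective.1 hf1) with hτ
    have hτf : ∀ u, τ u = f u := fun u => rfl
    have hpos : ∀ u, M u (τ u) ≠ 0 := by
      intro u
      have := hf2 u
      rw [mem_filter] at this
      exact this.2
    obtain ⟨σ, hσ⟩ := ih (fun u v => M u v - if τ u = v then 1 else 0) (by
      intro u
      have h1 : ∀ v, M u v = (M u v - if τ u = v then 1 else 0) + if τ u = v then 1 else 0 := by
        intro v
        by_cases h : τ u = v
        · rw [if_pos h]
          have := hpos u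
          rw [h] at this
          omega
        · rw [if_neg h]
          rfl
      have h2 := hr u
      rw [Finset.sum_congr rfl (fun v _ => h1 v), Finset.sum_add_distrib] at h2
      have h3 : ∑ v, (if τ u = v then 1 else 0) = 1 := by simp
      omega) (by
      intro v
      have h1 : ∀ u, M u v = (M u v - if τ u = v then 1 else 0) + if τ u = v then 1 else 0 := by
        intro u
        by_cases h : τ u = v
        · rw [if_pos h]
          have := hpos u
          rw [h] at this
          omega
        · rw [if_neg h]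
          rfl
      have h2 := hc v
      rw [Finset.sum_congr rfl (fun u _ => h1 u), Finset.sum_add_distrib] at h2
      have h3 : ∑ u, (if τ u = v then 1 else 0) = 1 := by
        rw [Finset.sum_eq_single (τ.symm v)]
        · simp
        · intro b _ hb
          rw [if_neg]
          intro h
          apply hb
          rw [← h, Equiv.symm_apply_apply]
        · intro h
          exact absurd (mem_univ _) h
      omega)
    refine ⟨Fin.cons τ σ, ?_⟩
    intro u v
    have h1 := hσ u v
    rw [Fin.card_filter_univ_succ]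
    simp only [Fin.cons_zero, Fin.cons_succ]
    rw [← h1]
    by_cases h : τ u = v
    · rw [if_pos h]
      have := hpos u
      rw [h] at this
      simp only [if_pos h]
      omega
    · rw [if_neg h]
      simp only [if_neg h]
      rfl

end perms

section even

variable {n : ℕ}

/-- the degree of `v` in the subgraph formed by the edge set `E` -/
def edeg (E : Finset (Sym2 (Fin n))) (v : Fin n) : ℕ := (E.filter (fun e => v ∈ e)).card

/-- the graph formed by the edges in `E` and their ends is 2-regular -/
def TwoRegular (E : Finset (Sym2 (Fin n))) : Prop := ∀ v, edeg E v = 0 ∨ edeg E v = 2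

lemma sum_fst (H : SimpleGraph (Fin n)) [DecidableRel H.Adj] (g : Fin n × Fin n → ℤ) (v : Fin n) :
    ∑ p ∈ univ.filter (fun p : Fin n × Fin n => p.1 < p.2 ∧ H.Adj p.1 p.2), g p * dl p.1 v =
      ∑ u, if v < u ∧ H.Adj v u then g (v, u) else 0 := by
  rw [Finset.sum_filter, Fintype.sum_prod_type]
  rw [Finset.sum_eq_single v]
  · apply Finset.sum_congr rfl
    intro u _
    simp [dl]
  · intro b _ hb
    apply Finset.sum_eq_zero
    intro u _
    simp [dl, hb]
  · intro h
    exact absurd (mem_univ _) h

lemma sum_snd (H : SimpleGraph (Fin n)) [DecidableRel H.Adj] (g : Fin n × Fin n → ℤ) (v : Fin n) :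
    ∑ p ∈ univ.filter (fun p : Fin n × Fin n => p.1 < p.2 ∧ H.Adj p.1 p.2), g p * dl p.2 v =
      ∑ u, if u < v ∧ H.Adj u v then g (u, v) else 0 := by
  rw [Finset.sum_filter, Fintype.sum_prod_type, Finset.sum_comm]
  rw [Finset.sum_eq_single v]
  · apply Finset.sum_congr rfl
    intro u _
    simp [dl]
  · intro b _ hb
    apply Finset.sum_eq_zero
    intro u _
    simp [dl, hb]
  · intro h
    exact absurd (mem_univ _) h

/-- an even graph with maximum degree at most `2k` decomposes into `k` (possibly empty)
2-regular graphs -/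
lemma even_decomp (H : SimpleGraph (Fin n)) [DecidableRel H.Adj] (k : ℕ)
    (hev : ∀ v, Even (H.degree v)) (hk : ∀ v, H.degree v ≤ 2 * k) :
    ∃ E : Fin k → Finset (Sym2 (Fin n)), (∀ i, TwoRegular (E i)) ∧
      (∀ i j, i ≠ j → Disjoint (E i) (E j)) ∧ ∀ e, e ∈ H.edgeSet ↔ ∃ i, e ∈ E i := by
  classical
  have hdeg : ∀ v, (∑ u, if H.Adj v u then (1 : ℤ) else 0) = (H.degree v : ℤ) := by
    intro v
    rw [Finset.sum_boole]
    congr 1
    rw [← SimpleGraph.card_neighborFinset_eq_degree]
    congr 1
    ext u
    simp
  set S := univ.filter (fun p : Fin n × Fin n => p.1 < p.2 ∧ H.Adj p.1 p.2) with hS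
  obtain ⟨s, hs1, hs2⟩ := exists_signs S.card S Prod.fst Prod.snd rfl (by
    intro v
    have h1 := sum_fst H (fun _ => 1) v
    have h2 := sum_snd H (fun _ => 1) v
    simp only [one_mul] at h1 h2
    rw [Finset.sum_add_distrib, h1, h2, ← Finset.sum_add_distrib]
    have h3 : (∑ u, ((if v < u ∧ H.Adj v u then (1 : ℤ) else 0) +
        if u < v ∧ H.Adj u v then 1 else 0)) = ∑ u, if H.Adj v u then (1 : ℤ) else 0 := by
      apply Finset.sum_congr rfl
      intro u _
      by_cases h : H.Adj v u
      · have hs := h.symm
        rcases lt_trichotomy v u with h' | h' | h'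
        · simp [h, hs, h', not_lt.2 h'.le]
        · exact absurd h' h.ne
        · simp [h, hs, h', not_lt.2 h'.le]
      · have hs : ¬ H.Adj u v := fun h'' => h h''.symm
        simp [h, hs]
    rw [h3, hdeg]
    exact_mod_cast hev v)
  set W : Fin n → Fin n → ℕ := fun u v =>
    if H.Adj u v ∧ ((u < v ∧ s (u, v) = 1) ∨ (v < u ∧ s (v, u) = -1)) then 1 else 0 with hW
  have hWle : ∀ u v, W u v ≤ 1 := by
    intro u v
    simp only [hW]
    split_ifs <;> omega
  have hWadj : ∀ u v, W u v ≠ 0 → H.Adj u v := by
    intro u v h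
    simp only [hW] at h
    by_contra hcon
    apply h
    rw [if_neg]
    exact fun h' => hcon h'.1
  have hWW : ∀ u v, W u v + W v u = if H.Adj u v then 1 else 0 := by
    intro u v
    simp only [hW]
    by_cases h : H.Adj u v
    · have hs := h.symm
      rcases lt_trichotomy u v with h' | h' | h'
      · rcases hs1 (u, v) with h1 | h1 <;> simp [h, hs, h', not_lt.2 h'.le, h1]
      · exact absurd h' h.ne
      · rcases hs1 (v, u) with h1 | h1 <;> simp [h, hs, h', not_lt.2 h'.le, h1]
    · have hs : ¬ H.Adj v u := fun h'' => h h''.symm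
      simp [h, hs]
  have hWd : ∀ u v, (W u v : ℤ) - W v u = (if u < v ∧ H.Adj u v then s (u, v) else 0) -
      (if v < u ∧ H.Adj v u then s (v, u) else 0) := by
    intro u v
    simp only [hW]
    by_cases h : H.Adj u v
    · have hs := h.symm
      rcases lt_trichotomy u v with h' | h' | h'
      · rcases hs1 (u, v) with h1 | h1 <;> simp [h, hs, h', not_lt.2 h'.le, h1]
      · exact absurd h' h.ne
      · rcases hs1 (v, u) with h1 | h1 <;> simp [h, hs, h', not_lt.2 h'.le, h1]
    · have hs : ¬ H.Adj v u := fun h'' => h h''.symm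
      simp [h, hs]
  have hbal : ∀ u, ∑ v, W u v = ∑ v, W v u := by
    intro u
    have h1 := hs2 u
    have h2 : ∀ p : Fin n × Fin n, s p * (dl p.1 u - dl p.2 u) = s p * dl p.1 u - s p * dl p.2 u :=
      fun p => by ring
    simp only [h2] at h1
    rw [Finset.sum_sub_distrib, sum_fst H s u, sum_snd H s u, ← Finset.sum_sub_distrib] at h1
    have h3 : ∑ v, ((W u v : ℤ) - W v u) = 0 := by
      rw [← h1]
      apply Finset.sum_congr rfl
      intro v _
      exact hWd u v
    rw [Finset.sum_sub_distrib] at h3
    have h4 : ((∑ v, W u v : ℕ) : ℤ) = ((∑ v, W v u : ℕ) : ℤ) := by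
      push_cast
      linarith
    exact_mod_cast h4
  have hrow : ∀ u, ∑ v, W u v ≤ k := by
    intro u
    have h1 : ∑ v, W u v + ∑ v, W v u = H.degree u := by
      rw [← Finset.sum_add_distrib, Finset.sum_congr rfl (fun v _ => hWW u v)]
      exact_mod_cast hdeg u
    have h2 := hbal u
    have h3 := hk u
    omega
  obtain ⟨σ, hσ⟩ := perm_decomp k (fun u v => W u v + if u = v then k - ∑ w, W u w else 0)
    (by
      intro u
      rw [Finset.sum_add_distrib]
      have h1 : (∑ v, if u = v then k - ∑ w, W u w else 0) = k - ∑ w, W u w := by simp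
      rw [h1]
      have := hrow u
      omega)
    (by
      intro v
      rw [Finset.sum_add_distrib]
      have h1 : (∑ u, if u = v then k - ∑ w, W u w else 0) = k - ∑ w, W v w := by simp
      rw [h1]
      have := hrow v
      have := hbal v
      omega)
  -- arcs of the permutations
  have hone : ∀ i j u, σ i u ≠ u → σ j u = σ i u → i = j := by
    intro i j u h1 h2
    have h3 := hσ u (σ i u)
    rw [if_neg h1.symm, add_zero] at h3
    have h4 := hWle u (σ i u)
    rw [h3, Finset.card_le_one] at h4
    exact h4 i (by simp) j (by simp [h2])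
  have harc : ∀ i u, σ i u ≠ u → W u (σ i u) = 1 := by
    intro i u h1
    have h3 := hσ u (σ i u)
    rw [if_neg h1.symm, add_zero] at h3
    have h4 := hWle u (σ i u)
    have h5 : 0 < (univ.filter fun j => σ j u = σ i u).card := by
      rw [card_pos]
      exact ⟨i, by simp⟩
    omega
  have hasym : ∀ i j u, σ i u ≠ u → σ j (σ i u) ≠ u := by
    intro i j u h1 h2
    have h3 := harc i u h1
    have h4 := harc j (σ i u) (by rw [h2]; exact h1.symm)
    rw [h2] at h4
    have h5 := hWW u (σ i u)
    split_ifs at h5 <;> omega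
  refine ⟨fun i => (univ.filter fun u => σ i u ≠ u).image fun u => s(u, σ i u), ?_, ?_, ?_⟩
  · intro i v
    by_cases hv : σ i v = v
    · left
      unfold edeg
      rw [card_eq_zero, filter_eq_empty_iff]
      intro e he hve
      rw [mem_image] at he
      obtain ⟨u, hu, rfl⟩ := he
      rw [mem_filter] at hu
      rw [Sym2.mem_iff] at hve
      rcases hve with rfl | h
      · exact hu.2 hv
      · have : σ i v = σ i u := by rw [hv, h]
        have h' := (σ i).injective this
        subst h'
        exact hu.2 hv
    · right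
      have hv' : (σ i).symm v ≠ v := by
        intro h
        apply hv
        rw [← h, Equiv.apply_symm_apply]
        exact h.symm
      unfold edeg
      have hset : ((univ.filter fun u => σ i u ≠ u).image fun u => s(u, σ i u)).filter
          (fun e => v ∈ e) = {s(v, σ i v), s((σ i).symm v, v)} := by
        ext e
        simp only [mem_filter, mem_image, mem_univ, true_and, mem_insert, mem_singleton]
        constructor
        · rintro ⟨⟨u, hu, rfl⟩, hve⟩
          rw [Sym2.mem_iff] at hve
          rcases hve with rfl | h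
          · exact Or.inl rfl
          · right
            rw [h, Equiv.symm_apply_apply]
        · rintro (rfl | rfl)
          · exact ⟨⟨v, hv, rfl⟩, Sym2.mem_mk_left _ _⟩
          · refine ⟨⟨(σ i).symm v, ?_, ?_⟩, Sym2.mem_mk_right _ _⟩
            · rw [Equiv.apply_symm_apply]
              exact hv'.symm
            · rw [Equiv.apply_symm_apply]
      rw [hset, card_pair]
      intro h
      rw [Sym2.eq_iff] at h
      rcases h with ⟨h, -⟩ | ⟨-, h⟩
      · exact hv' h.symm
      · apply hasym i i v hv
        rw [h, Equiv.apply_symm_apply]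
  · intro i j hij
    rw [Finset.disjoint_left]
    intro e he he'
    rw [mem_image] at he he'
    obtain ⟨u, hu, rfl⟩ := he
    obtain ⟨v, hv, hvu⟩ := he'
    rw [mem_filter] at hu hv
    rw [Sym2.eq_iff] at hvu
    rcases hvu with ⟨rfl, h⟩ | ⟨h1, h2⟩
    · exact hij (hone i j v hu.2 h)
    · apply hasym i j u hu.2
      rw [← h1, h2]
  · intro e
    constructor
    · intro he
      induction e using Sym2.ind with
      | _ u v =>
        rw [SimpleGraph.mem_edgeSet] at he
        have key : ∀ u v, H.Adj u v → W u v = 1 → ∃ i, s(u, v) ∈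
            (univ.filter fun u => σ i u ≠ u).image fun u => s(u, σ i u) := by
          intro u v h1 h2
          have h3 := hσ u v
          rw [h2, if_neg h1.ne, add_zero] at h3
          have h4 : (univ.filter fun i => σ i u = v).Nonempty := by
            rw [← card_pos]
            omega
          obtain ⟨i, hi⟩ := h4
          rw [mem_filter] at hi
          refine ⟨i, ?_⟩
          rw [mem_image]
          refine ⟨u, ?_, by rw [hi.2]⟩
          rw [mem_filter]
          exact ⟨mem_univ _, by rw [hi.2]; exact h1.ne'⟩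
        have h5 := hWW u v
        rw [if_pos he] at h5
        rcases Nat.eq_zero_or_pos (W u v) with h6 | h6
        · have := key v u he.symm (by omega)
          rwa [Sym2.eq_swap] at this
        · exact key u v he (by omega)
    · rintro ⟨i, hi⟩
      rw [mem_image] at hi
      obtain ⟨u, hu, rfl⟩ := hi
      rw [mem_filter] at hu
      rw [SimpleGraph.mem_edgeSet]
      apply hWadj
      rw [harc i u hu.2]
      norm_num

end even

section joins

variable {V : Type} [Fintype V] [DecidableEq V] {G : SimpleGraph V}

/-- subsets of the edge set as symmetric matrices over the field with two elements -/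
structure IsSub (G : SimpleGraph V) (x : V → V → ZMod 2) : Prop where
  symm : ∀ u v, x u v = x v u
  adj : ∀ u v, x u v ≠ 0 → G.Adj u v

/-- parities of the degrees -/
def bd (x : V → V → ZMod 2) (v : V) : ZMod 2 := ∑ u, x v u

/-- twice the number of edges -/
def wt (x : V → V → ZMod 2) : ℕ := (univ.filter fun p : V × V => x p.1 p.2 ≠ 0).card

omit [Fintype V] [DecidableEq V] in
lemma IsSub.add {x y : V → V → ZMod 2} (hx : IsSub G x) (hy : IsSub G y) : IsSub G (x + y) := by
  refine ⟨fun u v => ?_, fun u v h => ?_⟩
  · simp only [Pi.add_apply]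
    rw [hx.symm, hy.symm]
  · by_contra hcon
    apply h
    have h1 : x u v = 0 := by
      by_contra h1
      exact hcon (hx.adj u v h1)
    have h2 : y u v = 0 := by
      by_contra h2
      exact hcon (hy.adj u v h2)
    simp only [Pi.add_apply, h1, h2, add_zero]

omit [Fintype V] [DecidableEq V] in
lemma IsSub.zero : IsSub G (0 : V → V → ZMod 2) := ⟨fun _ _ => rfl, fun _ _ h => absurd rfl h⟩

omit [DecidableEq V] in
lemma bd_add (x y : V → V → ZMod 2) (v : V) : bd (x + y) v = bd x v + bd y v := by
  simp only [bd, Pi.add_apply, Finset.sum_add_distrib]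

lemma wt_add (x y : V → V → ZMod 2) : wt (x + y) ≤ wt x + wt y := by
  unfold wt
  refine le_trans (card_le_card ?_) (card_union_le _ _)
  intro p hp
  rw [mem_filter] at hp
  rw [mem_union, mem_filter, mem_filter]
  by_contra hcon
  push Not at hcon
  apply hp.2
  simp only [Pi.add_apply]
  rw [hcon.1 (mem_univ _), hcon.2 (mem_univ _), add_zero]

omit [DecidableEq V] in
/-- handshake in a union of components -/
lemma handshake {x : V → V → ZMod 2} (hx : IsSub G x) (K : Finset V)
    (hK : ∀ u ∈ K, ∀ v, G.Adj u v → v ∈ K) : ∑ v ∈ K, bd x v = 0 := by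
  unfold bd
  have h1 : ∀ v ∈ K, ∑ u, x v u = ∑ u ∈ K, x v u := by
    intro v hv
    symm
    apply Finset.sum_subset (subset_univ _)
    intro u _ hu
    by_contra hne
    exact hu (hK v hv u (hx.adj v u hne))
  rw [Finset.sum_congr rfl h1, ← Finset.sum_product']
  apply Finset.sum_involution (fun p _ => (p.2, p.1))
  · intro p _
    rw [hx.symm p.2 p.1]
    exact CharTwo.add_self_eq_zero _
  · intro p _ hp heq
    have h2 := hx.adj p.1 p.2 hp
    have h3 : p.2 = p.1 := congrArg Prod.fst heq
    rw [h3] at h2
    exact h2.ne rfl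
  · intro p hp
    rw [mem_product] at hp ⊢
    exact ⟨hp.2, hp.1⟩
  · intro p _
    rfl

/-- a single edge -/
def ed (u v a b : V) : ZMod 2 := (if a = u ∧ b = v then 1 else 0) + if a = v ∧ b = u then 1 else 0

omit [Fintype V] in
lemma ed_isSub {u v : V} (h : G.Adj u v) : IsSub G (ed u v) := by
  refine ⟨fun a b => ?_, fun a b hab => ?_⟩
  · unfold ed
    rw [add_comm]
    congr 1
    · simp only [and_comm]
    · simp only [and_comm]
  · unfold ed at hab
    by_cases h1 : a = u ∧ b = v
    · rw [h1.1, h1.2]
      exact h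
    · by_cases h2 : a = v ∧ b = u
      · rw [h2.1, h2.2]
        exact h.symm
      · rw [if_neg h1, if_neg h2] at hab
        exact absurd (add_zero 0) hab

lemma bd_ed (u v a : V) : bd (ed u v) a = (if a = u then 1 else 0) + if a = v then 1 else 0 := by
  unfold bd ed
  rw [Finset.sum_add_distrib]
  congr 1
  · by_cases h : a = u
    · simp [h]
    · simp [h]
  · by_cases h : a = v
    · simp [h]
    · simp [h]

lemma wt_ed (u v : V) : wt (ed u v) ≤ 2 := by
  unfold wt
  refine le_trans (card_le_card (t := {(u, v), (v, u)}) ?_) (card_le_two)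
  intro p hp
  rw [mem_filter] at hp
  have h := hp.2
  unfold ed at h
  rw [mem_insert, mem_singleton]
  by_contra hcon
  push Not at hcon
  apply h
  rw [if_neg, if_neg, add_zero]
  · rintro ⟨h1, h2⟩
    exact hcon.2 (Prod.ext h1 h2)
  · rintro ⟨h1, h2⟩
    exact hcon.1 (Prod.ext h1 h2)

lemma zmod2_ne_zero {a : ZMod 2} (h : a ≠ 0) : a = 1 := by
  revert a
  decide

/-- the odd vertices can be moved into `S` using at most `|V \ S|` edges -/
lemma shrink : ∀ (m : ℕ) (S : Finset V), (univ \ S).card = m → ∀ z : V → V → ZMod 2, IsSub G z →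
    ∃ x : V → V → ZMod 2, IsSub G x ∧ wt x ≤ 2 * m ∧ ∀ v, v ∉ S → bd (z + x) v = 0 := by
  intro m
  induction m with
  | zero =>
    intro S hS z _
    refine ⟨0, IsSub.zero, by simp [wt], ?_⟩
    intro v hv
    rw [card_eq_zero, sdiff_eq_empty_iff_subset] at hS
    exact absurd (hS (mem_univ v)) hv
  | succ m ih =>
    intro S hS z hz
    have hcard : ∀ r, r ∉ S → (univ \ insert r S).card = m := by
      intro r hr
      have h1 : univ \ insert r S = (univ \ S).erase r := by
        ext w
        simp only [mem_sdiff, mem_univ, true_and, mem_insert, mem_erase, not_or]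
      rw [h1, card_erase_of_mem (by rw [mem_sdiff]; exact ⟨mem_univ _, hr⟩), hS]
      rfl
    by_cases hex : ∃ u ∈ S, ∃ v, v ∉ S ∧ G.Adj u v
    · obtain ⟨u, hu, v, hv, huv⟩ := hex
      obtain ⟨x, hx1, hx2, hx3⟩ := ih (insert v S) (hcard v hv) z hz
      by_cases h0 : bd (z + x) v = 0
      · refine ⟨x, hx1, by omega, ?_⟩
        intro w hw
        by_cases hwv : w = v
        · rw [hwv, h0]
        · exact hx3 w (by rw [mem_insert, not_or]; exact ⟨hwv, hw⟩)
      · refine ⟨x + ed u v, hx1.add (ed_isSub huv), ?_, ?_⟩
        · have h1 := wt_add x (ed u v)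
          have h2 := wt_ed u v
          omega
        · intro w hw
          rw [← add_assoc, bd_add, bd_ed]
          have hwu : w ≠ u := fun h => hw (h ▸ hu)
          rw [if_neg hwu, zero_add]
          by_cases hwv : w = v
          · rw [if_pos hwv, hwv, zmod2_ne_zero h0]
            decide
          · rw [if_neg hwv, add_zero]
            exact hx3 w (by rw [mem_insert, not_or]; exact ⟨hwv, hw⟩)
    · push Not at hex
      obtain ⟨r, hr⟩ : (univ \ S).Nonempty := by
        rw [← card_pos]
        omega
      rw [mem_sdiff] at hr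
      obtain ⟨x, hx1, hx2, hx3⟩ := ih (insert r S) (hcard r hr.2) z hz
      refine ⟨x, hx1, by omega, ?_⟩
      intro w hw
      by_cases hwr : w = r
      · have h1 := handshake (hz.add hx1) (univ \ S) (by
          intro a ha b hab
          rw [mem_sdiff] at ha ⊢
          refine ⟨mem_univ _, fun hb => ?_⟩
          exact hex b hb a ha.2 hab.symm)
        rw [Finset.sum_eq_single_of_mem w (by rw [mem_sdiff]; exact ⟨mem_univ _, hw⟩)] at h1
        · exact h1
        · intro b hb hbw
          rw [mem_sdiff] at hb
          apply hx3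
          rw [mem_insert, not_or]
          exact ⟨fun h => hbw (h.trans hwr.symm), hb.2⟩
      · exact hx3 w (by rw [mem_insert, not_or]; exact ⟨hwr, hw⟩)

/-- a cyclic telescoping sum -/
lemma telescope {L : ℕ} (g : Fin (L + 1) → ZMod 2) (hg : ∑ i, g i = 0) :
    ∃ s : Fin (L + 1) → ZMod 2, ∀ i, s i - s (i + 1) = g i := by
  set G : ℕ → ZMod 2 := fun j => if h : j < L + 1 then g ⟨j, h⟩ else 0 with hG
  refine ⟨fun i => ∑ j ∈ Finset.Ico i.val (L + 1), G j, ?_⟩
  have hGi : ∀ i : Fin (L + 1), G i.val = g i := by
    intro i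
    rw [hG]
    simp only
    rw [dif_pos i.isLt]
  intro i
  rcases Fin.eq_castSucc_or_eq_last i with ⟨j, rfl⟩ | rfl
  rotate_left
  · have h0 : ∑ j ∈ Finset.Ico 0 (L + 1), G j = 0 := by
      rw [← hg, Finset.sum_fin_eq_sum_range, Finset.range_eq_Ico]
    simp only [Fin.last_add_one, Fin.val_zero, Fin.val_last, h0, sub_zero]
    rw [Nat.Ico_succ_singleton, Finset.sum_singleton]
    simpa using hGi (Fin.last L)
  · have h1 : (j.castSucc + 1).val = j.val + 1 := by
      rw [Fin.coeSucc_eq_succ, Fin.val_succ]
    simp only [h1, Fin.val_castSucc]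
    rw [Finset.sum_eq_sum_Ico_succ_bot (show j.val < L + 1 by omega)]
    have := hGi j.castSucc
    simp only [Fin.val_castSucc] at this
    rw [this]
    ring

/-- odd vertices on a cycle can be joined using at most half of its edges -/
lemma cycle_join {L : ℕ} (c : Fin (L + 1) → V) (hinj : Function.Injective c)
    (hadj : ∀ i, G.Adj (c i) (c (i + 1))) (T : V → ZMod 2)
    (hT : ∀ v, v ∉ univ.image c → T v = 0) (hsum : ∑ i, T (c i) = 0) :
    ∃ x : V → V → ZMod 2, IsSub G x ∧ wt x ≤ 2 * ((L + 1) / 2) ∧ ∀ v, bd x v = T v := by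
  have hsum' : ∑ i, T (c (i + 1)) = 0 := by
    rw [← hsum]
    exact Equiv.sum_comp (Equiv.addRight (1 : Fin (L + 1))) (fun i => T (c i))
  obtain ⟨s, hs⟩ := telescope (fun i => T (c (i + 1))) hsum'
  -- both `s` and `s + 1` work
  have key : ∀ y : Fin (L + 1) → ZMod 2, (∀ i, y i - y (i + 1) = T (c (i + 1))) →
      ∃ x : V → V → ZMod 2, IsSub G x ∧ wt x ≤ 2 * (univ.filter fun i => y i ≠ 0).card ∧
        ∀ v, bd x v = T v := by
    intro y hy
    refine ⟨fun a b => ∑ i, y i * ed (c i) (c (i + 1)) a b, ⟨?_, ?_⟩, ?_, ?_⟩
    · intro a b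
      apply Finset.sum_congr rfl
      intro i _
      rw [(ed_isSub (hadj i)).symm a b]
    · intro a b h
      obtain ⟨i, -, hi⟩ := Finset.exists_ne_zero_of_sum_ne_zero h
      exact (ed_isSub (hadj i)).adj a b (right_ne_zero_of_mul hi)
    · show (univ.filter fun p : V × V =>
        (∑ i, y i * ed (c i) (c (i + 1)) p.1 p.2) ≠ 0).card ≤ _
      have hsub : (univ.filter fun p : V × V => (∑ i, y i * ed (c i) (c (i + 1)) p.1 p.2) ≠ 0) ⊆
          ((univ.filter fun i => y i ≠ 0).image fun i => (c i, c (i + 1))) ∪
          ((univ.filter fun i => y i ≠ 0).image fun i => (c (i + 1), c i)) := by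
        intro p hp
        rw [mem_filter] at hp
        obtain ⟨i, -, hi⟩ := Finset.exists_ne_zero_of_sum_ne_zero hp.2
        have h1 := left_ne_zero_of_mul hi
        have h2 := right_ne_zero_of_mul hi
        unfold ed at h2
        rw [mem_union, mem_image, mem_image]
        by_cases h3 : p.1 = c i ∧ p.2 = c (i + 1)
        · left
          refine ⟨i, by rw [mem_filter]; exact ⟨mem_univ _, h1⟩, ?_⟩
          exact Prod.ext h3.1.symm h3.2.symm
        · by_cases h4 : p.1 = c (i + 1) ∧ p.2 = c i
          · right
            refine ⟨i, by rw [mem_filter]; exact ⟨mem_univ _, h1⟩, ?_⟩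
            exact Prod.ext h4.1.symm h4.2.symm
          · rw [if_neg h3, if_neg h4] at h2
            exact absurd (add_zero 0) h2
      have h1 := card_le_card hsub
      have h2 := card_union_le ((univ.filter fun i => y i ≠ 0).image fun i => (c i, c (i + 1)))
        ((univ.filter fun i => y i ≠ 0).image fun i => (c (i + 1), c i))
      have h3 : ((univ.filter fun i => y i ≠ 0).image fun i => (c i, c (i + 1))).card ≤
        (univ.filter fun i => y i ≠ 0).card := card_image_le
      have h4 : ((univ.filter fun i => y i ≠ 0).image fun i => (c (i + 1), c i)).card ≤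
        (univ.filter fun i => y i ≠ 0).card := card_image_le
      omega
    · intro v
      have h1 : bd (fun a b => ∑ i, y i * ed (c i) (c (i + 1)) a b) v =
          ∑ i, y i * bd (ed (c i) (c (i + 1))) v := by
        unfold bd
        rw [Finset.sum_comm]
        apply Finset.sum_congr rfl
        intro i _
        rw [Finset.mul_sum]
      rw [h1]
      simp only [bd_ed, mul_add]
      rw [Finset.sum_add_distrib]
      by_cases hv : v ∈ univ.image c
      · rw [mem_image] at hv
        obtain ⟨j, -, rfl⟩ := hv
        have e1 : ∑ i, y i * (if c j = c i then 1 else 0) = y j := by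
          rw [Finset.sum_eq_single j]
          · simp
          · intro b _ hb
            rw [if_neg (fun h => hb (hinj h).symm), mul_zero]
          · intro h
            exact absurd (mem_univ _) h
        have e2 : ∑ i, y i * (if c j = c (i + 1) then 1 else 0) = y (j - 1) := by
          rw [Finset.sum_eq_single (j - 1)]
          · simp
          · intro b _ hb
            rw [if_neg, mul_zero]
            intro h
            apply hb
            rw [hinj h, add_sub_cancel_right]
          · intro h
            exact absurd (mem_univ _) h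
        rw [e1, e2]
        have h2 := hy (j - 1)
        rw [sub_add_cancel] at h2
        rw [← h2, CharTwo.sub_eq_add, add_comm]
      · rw [hT v hv]
        have h2 : ∀ i, v ≠ c i := fun i h => hv (by rw [mem_image]; exact ⟨i, mem_univ _, h.symm⟩)
        simp [h2]
  obtain ⟨x, hx1, hx2, hx3⟩ := key s hs
  obtain ⟨x', hx1', hx2', hx3'⟩ := key (fun i => s i + 1) (by
    intro i
    rw [← hs i]
    ring)
  have hcount : (univ.filter fun i => s i ≠ 0).card +
      (univ.filter fun i => s i + 1 ≠ 0).card = L + 1 := by
    have h1 : (univ.filter fun i => s i + 1 ≠ 0) = univ.filter fun i => ¬ (s i ≠ 0) := by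
      ext i
      simp only [mem_filter, mem_univ, true_and]
      generalize s i = a
      revert a
      decide
    rw [h1, card_filter_add_card_filter_not]
    simp
  rcases Nat.lt_or_ge (L + 1) (2 * (univ.filter fun i => s i ≠ 0).card) with h | h
  · exact ⟨x', hx1', by omega, hx3'⟩
  · exact ⟨x, hx1, by omega, hx3⟩

/-- minimum degree at least `d ≥ 1` gives a closed walk through at least `d + 1` different
vertices (an edge or a cycle) -/
lemma exists_cycle [Nonempty V] [DecidableRel G.Adj] (d : ℕ) (hd : 1 ≤ d)
    (hdeg : ∀ v, d ≤ G.degree v) :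
    ∃ (L : ℕ) (c : Fin (L + 1) → V), d ≤ L ∧ Function.Injective c ∧
      ∀ i, G.Adj (c i) (c (i + 1)) := by
  classical
  -- paths with `m` edges
  set Q : ℕ → Prop := fun m => ∃ p : ℕ → V, Set.InjOn p (Set.Iic m) ∧
    ∀ i, i < m → G.Adj (p i) (p (i + 1)) with hQ
  have hQ0 : Q 0 := by
    obtain ⟨v⟩ := ‹Nonempty V›
    refine ⟨fun _ => v, ?_, fun i hi => absurd hi (Nat.not_lt_zero i)⟩
    intro a ha b hb _
    have h1 : a ≤ 0 := ha
    have h2 : b ≤ 0 := hb
    omega
  have hQb : ∀ m, Q m → m < Fintype.card V := by
    rintro m ⟨p, hp, -⟩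
    have h1 : ((Finset.Iic m).image p).card = m + 1 := by
      rw [card_image_of_injOn]
      · simp
      · intro a ha b hb hab
        exact hp (by simpa using ha) (by simpa using hb) hab
    have h2 := card_le_univ ((Finset.Iic m).image p)
    omega
  set m := Nat.findGreatest Q (Fintype.card V) with hm
  have hQm : Q m := Nat.findGreatest_spec (P := Q) (m := 0) (Nat.zero_le _) hQ0
  have hmax : ¬ Q (m + 1) := by
    intro h
    have h1 := hQb _ h
    have h2 := Nat.le_findGreatest (P := Q) h1.le h
    omega
  obtain ⟨p, hp, hadj⟩ := hQm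
  -- all neighbours of `p 0` are on the path
  have hnb : ∀ v, G.Adj (p 0) v → ∃ j, 1 ≤ j ∧ j ≤ m ∧ v = p j := by
    intro v hv
    by_contra hcon
    push Not at hcon
    apply hmax
    refine ⟨fun i => if i = 0 then v else p (i - 1), ?_, ?_⟩
    · intro a ha b hb hab
      have ha' : a ≤ m + 1 := ha
      have hb' : b ≤ m + 1 := hb
      have hvp : ∀ j, j ≤ m → v ≠ p j := by
        intro j hj
        rcases Nat.eq_zero_or_pos j with rfl | hj'
        · exact hv.ne'
        · exact hcon j hj' hj
      simp only at hab
      by_cases h0 : a = 0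
      · by_cases h1 : b = 0
        · rw [h0, h1]
        · rw [if_pos h0, if_neg h1] at hab
          exact absurd hab (hvp _ (by omega))
      · by_cases h1 : b = 0
        · rw [if_neg h0, if_pos h1] at hab
          exact absurd hab.symm (hvp _ (by omega))
        · rw [if_neg h0, if_neg h1] at hab
          have h2 := hp (show a - 1 ≤ m by omega) (show b - 1 ≤ m by omega) hab
          omega
    · intro i hi
      by_cases h0 : i = 0
      · subst h0
        simp only [if_true]
        rw [if_neg (by omega)]
        exact hv.symm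
      · simp only [if_neg h0]
        rw [if_neg (by omega)]
        have := hadj (i - 1) (by omega)
        rw [show i - 1 + 1 = i by omega] at this
        rw [show i + 1 - 1 = i by omega]
        exact this
  -- the last neighbour
  have hJ : ((Finset.Icc 1 m).filter fun j => G.Adj (p 0) (p j)).Nonempty := by
    have h1 : 0 < G.degree (p 0) := by
      have := hdeg (p 0)
      omega
    rw [G.degree_pos_iff_exists_adj] at h1
    obtain ⟨v, hv⟩ := h1
    obtain ⟨j, h1, h2, rfl⟩ := hnb v hv
    exact ⟨j, by rw [mem_filter, Finset.mem_Icc]; exact ⟨⟨h1, h2⟩, hv⟩⟩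
  set j := ((Finset.Icc 1 m).filter fun j => G.Adj (p 0) (p j)).max' hJ with hj
  have hjmem := Finset.max'_mem _ hJ
  rw [← hj, mem_filter, Finset.mem_Icc] at hjmem
  have hjmax : ∀ i, 1 ≤ i → i ≤ m → G.Adj (p 0) (p i) → i ≤ j := by
    intro i h1 h2 h3
    apply Finset.le_max'
    rw [mem_filter, Finset.mem_Icc]
    exact ⟨⟨h1, h2⟩, h3⟩
  refine ⟨j, fun i => p i.val, ?_, ?_, ?_⟩
  · have hsub : G.neighborFinset (p 0) ⊆ (Finset.Icc 1 j).image p := by
      intro v hv
      rw [SimpleGraph.mem_neighborFinset] at hv
      obtain ⟨i, h1, h2, rfl⟩ := hnb v hv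
      rw [mem_image]
      exact ⟨i, by rw [Finset.mem_Icc]; exact ⟨h1, hjmax i h1 h2 hv⟩, rfl⟩
    have h1 := card_le_card hsub
    have h2 : ((Finset.Icc 1 j).image p).card ≤ (Finset.Icc 1 j).card := card_image_le
    rw [SimpleGraph.card_neighborFinset_eq_degree] at h1
    rw [Nat.card_Icc] at h2
    have := hdeg (p 0)
    omega
  · intro a b hab
    have h1 := hp (show a.val ≤ m by have := a.isLt; omega)
      (show b.val ≤ m by have := b.isLt; omega) hab
    exact Fin.ext h1
  · intro i
    rcases Fin.eq_castSucc_or_eq_last i with ⟨l, rfl⟩ | rfl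
    · have h1 : (l.castSucc + 1).val = l.val + 1 := by
        rw [Fin.coeSucc_eq_succ, Fin.val_succ]
      show G.Adj (p l.castSucc.val) (p (l.castSucc + 1).val)
      rw [h1, Fin.val_castSucc]
      exact hadj _ (by have := l.isLt; omega)
    · show G.Adj (p (Fin.last j).val) (p (Fin.last j + 1).val)
      rw [Fin.last_add_one, Fin.val_last, Fin.val_zero]
      exact hjmem.2.symm

/-- a small edge set with all degrees odd -/
lemma exists_join [Nonempty V] [DecidableRel G.Adj] (a : ℕ) (hodd : ∀ v, Odd (G.degree v))
    (hdeg : ∀ v, 2 * a + 1 ≤ G.degree v) :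
    ∃ x : V → V → ZMod 2, IsSub G x ∧ wt x + 2 * (a + 1) ≤ 2 * Fintype.card V ∧
      ∀ v, bd x v = 1 := by
  classical
  obtain ⟨L, c, hL, hinj, hadj⟩ := exists_cycle (2 * a + 1) (by omega) hdeg
  set A : V → V → ZMod 2 := fun u v => if G.Adj u v then 1 else 0 with hA
  have hAs : IsSub G A := by
    refine ⟨fun u v => ?_, fun u v h => ?_⟩
    · simp only [hA]
      by_cases h : G.Adj u v
      · rw [if_pos h, if_pos h.symm]
      · rw [if_neg h, if_neg (fun h' => h h'.symm)]
    · simp only [hA] at h
      by_contra hcon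
      rw [if_neg hcon] at h
      exact h rfl
  have hAb : ∀ v, bd A v = 1 := by
    intro v
    unfold bd
    simp only [hA]
    rw [Finset.sum_boole]
    have h1 : (univ.filter fun u => G.Adj v u).card = G.degree v := by
      rw [← SimpleGraph.card_neighborFinset_eq_degree]
      congr 1
      ext u
      simp
    rw [h1]
    obtain ⟨b, hb⟩ := hodd v
    rw [hb]
    push_cast
    have : (2 : ZMod 2) = 0 := by decide
    rw [this]
    ring
  have hcimg : (univ.image c).card = L + 1 := by
    rw [card_image_of_injective _ hinj]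
    simp
  obtain ⟨x, hx1, hx2, hx3⟩ := shrink (G := G) (univ \ univ.image c).card (univ.image c) rfl A hAs
  have hcard : (univ \ univ.image c).card + (L + 1) = Fintype.card V := by
    have h := card_sdiff_add_card_eq_card (subset_univ (univ.image c))
    rw [hcimg] at h
    exact h
  obtain ⟨y, hy1, hy2, hy3⟩ := cycle_join c hinj hadj (bd (A + x)) hx3 (by
    have h1 := handshake (hAs.add hx1) univ (fun _ _ _ _ => mem_univ _)
    rw [← h1, ← Finset.sum_image (s := univ) (g := c) (f := bd (A + x)) (fun a _ b _ h => hinj h)]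
    apply Finset.sum_subset (subset_univ _)
    intro v _ hv
    exact hx3 v hv)
  refine ⟨x + y, hx1.add hy1, ?_, ?_⟩
  · have := wt_add x y
    omega
  · intro v
    have h1 := hy3 v
    rw [bd_add, hAb] at h1
    rw [bd_add, h1]
    have h2 : ∀ b : ZMod 2, b + (1 + b) = 1 := by decide
    exact h2 _

end joins

section final

variable {n : ℕ}

/-- `P` is a decomposition of `G` into 2-regular graphs and single edges: a set of nonempty,
pairwise disjoint edge sets with union `E(G)`, each of them 2-regular or a single edge -/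
def IsDecomp (G : SimpleGraph (Fin n)) (P : Finset (Finset (Sym2 (Fin n)))) : Prop :=
  (∀ E ∈ P, E.Nonempty ∧ (TwoRegular E ∨ E.card = 1)) ∧
  (∀ E ∈ P, ∀ F ∈ P, E ≠ F → Disjoint E F) ∧
  (∀ e, e ∈ G.edgeSet ↔ ∃ E ∈ P, e ∈ E)

/-- the least number of parts of such a decomposition -/
noncomputable def re (G : SimpleGraph (Fin n)) : ℕ := sInf {m | ∃ P, IsDecomp G P ∧ P.card = m}

theorem re_le (hn : 1 ≤ n) (G : SimpleGraph (Fin n)) [DecidableRel G.Adj] (a k : ℕ)
    (hodd : ∀ v, Odd (G.degree v)) (ha : ∀ v, 2 * a + 1 ≤ G.degree v)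
    (hk : ∀ v, G.degree v ≤ 2 * k + 1) :
    ∃ P, IsDecomp G P ∧ P.card + a + 1 ≤ n + k := by
  classical
  have : Nonempty (Fin n) := ⟨⟨0, hn⟩⟩
  obtain ⟨x, hx1, hx2, hx3⟩ := exists_join (G := G) a hodd ha
  rw [Fintype.card_fin] at hx2
  set J : SimpleGraph (Fin n) :=
    { Adj := fun u v => x u v ≠ 0
      symm := ⟨fun u v h => by rwa [hx1.symm v u]⟩
      loopless := ⟨fun v h => (hx1.adj v v h).ne rfl⟩ } with hJ
  have hJadj : ∀ u v, J.Adj u v ↔ x u v ≠ 0 := fun u v => Iff.rfl
  have hJdeg : ∀ v, J.degree v = (univ.filter fun u => x v u ≠ 0).card := by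
    intro v
    rw [← SimpleGraph.card_neighborFinset_eq_degree]
    congr 1
    ext u
    simp [hJadj]
  have hJodd : ∀ v, Odd (J.degree v) := by
    intro v
    have h1 := hx3 v
    unfold bd at h1
    have h2 : ∑ u, x v u = ∑ u, if x v u ≠ 0 then (1 : ZMod 2) else 0 := by
      apply Finset.sum_congr rfl
      intro u _
      by_cases h : x v u = 0
      · simp [h]
      · rw [if_pos h, zmod2_ne_zero h]
    rw [h2, Finset.sum_boole, ← hJdeg] at h1
    rw [← Nat.not_even_iff_odd]
    intro hev
    rw [(ZMod.natCast_eq_zero_iff_even).2 hev] at h1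
    exact absurd h1 (by decide)
  have hJcard : J.edgeFinset.card + (a + 1) ≤ n := by
    have h1 := J.sum_degrees_eq_twice_card_edges
    have h2 : ∑ v, J.degree v = wt x := by
      unfold wt
      rw [Finset.card_filter, Fintype.sum_prod_type]
      apply Finset.sum_congr rfl
      intro v _
      rw [hJdeg, Finset.card_filter]
    rw [h2] at h1
    omega
  have hJG : J ≤ G := fun u v h => hx1.adj u v h
  -- the even rest
  have hHdeg : ∀ v, (G \ J).degree v = G.degree v - J.degree v := by
    intro v
    rw [← SimpleGraph.card_neighborFinset_eq_degree, ← SimpleGraph.card_neighborFinset_eq_degree,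
      ← SimpleGraph.card_neighborFinset_eq_degree, ← card_sdiff_of_subset]
    · congr 1
      ext u
      simp
    · intro u hu
      rw [SimpleGraph.mem_neighborFinset] at hu ⊢
      exact hJG hu
  have hJle : ∀ v, J.degree v ≤ G.degree v := fun v => SimpleGraph.degree_le_of_le hJG
  obtain ⟨E, hE1, hE2, hE3⟩ := even_decomp (G \ J) k (by
    intro v
    rw [hHdeg]
    exact Nat.Odd.sub_odd (hodd v) (hJodd v)) (by
    intro v
    rw [hHdeg]
    have h1 := hk v
    have h2 := (hJodd v).pos
    omega)
  have hEJ : ∀ i, ∀ e ∈ E i, e ∉ J.edgeSet := by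
    intro i e he hJe
    have h1 := (hE3 e).2 ⟨i, he⟩
    induction e using Sym2.ind with
    | _ u v =>
      rw [SimpleGraph.mem_edgeSet] at h1 hJe
      exact h1.2 hJe
  refine ⟨(univ.image E).filter (fun F => F.Nonempty) ∪ J.edgeFinset.image (fun e => {e}), ⟨?_, ?_, ?_⟩, ?_⟩
  · intro F hF
    rw [mem_union, mem_filter, mem_image, mem_image] at hF
    rcases hF with ⟨⟨i, -, rfl⟩, h⟩ | ⟨e, -, rfl⟩
    · exact ⟨h, Or.inl (hE1 i)⟩
    · exact ⟨singleton_nonempty e, Or.inr (card_singleton e)⟩
  · intro F hF F' hF' hne
    rw [mem_union, mem_filter, mem_image, mem_image] at hF hF'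
    rcases hF with ⟨⟨i, -, rfl⟩, -⟩ | ⟨e, he, rfl⟩ <;>
      rcases hF' with ⟨⟨j, -, rfl⟩, -⟩ | ⟨f, hf, rfl⟩
    · exact hE2 i j (fun h => hne (by rw [h]))
    · rw [disjoint_singleton_right]
      intro h
      exact hEJ i f h (SimpleGraph.mem_edgeFinset.1 hf)
    · rw [disjoint_singleton_left]
      intro h
      exact hEJ j e h (SimpleGraph.mem_edgeFinset.1 he)
    · rw [disjoint_singleton]
      exact fun h => hne (by rw [h])
  · intro e
    constructor
    · intro he
      by_cases hJe : e ∈ J.edgeSet
      · refine ⟨{e}, ?_, mem_singleton_self e⟩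
        rw [mem_union, mem_image]
        exact Or.inr ⟨e, SimpleGraph.mem_edgeFinset.2 hJe, rfl⟩
      · have h1 : e ∈ (G \ J).edgeSet := by
          induction e using Sym2.ind with
          | _ u v =>
            rw [SimpleGraph.mem_edgeSet] at he hJe ⊢
            exact ⟨he, hJe⟩
        obtain ⟨i, hi⟩ := (hE3 e).1 h1
        refine ⟨E i, ?_, hi⟩
        rw [mem_union, mem_filter, mem_image]
        exact Or.inl ⟨⟨i, mem_univ _, rfl⟩, ⟨e, hi⟩⟩
    · rintro ⟨F, hF, heF⟩
      rw [mem_union, mem_filter, mem_image, mem_image] at hF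
      rcases hF with ⟨⟨i, -, rfl⟩, -⟩ | ⟨f, hf, rfl⟩
      · have h1 := (hE3 e).2 ⟨i, heF⟩
        induction e using Sym2.ind with
        | _ u v =>
          rw [SimpleGraph.mem_edgeSet] at h1 ⊢
          exact h1.1
      · rw [mem_singleton] at heF
        subst heF
        exact SimpleGraph.edgeSet_mono hJG (SimpleGraph.mem_edgeFinset.1 hf)
  · have h1 := card_union_le ((univ.image E).filter (fun F => F.Nonempty))
      (J.edgeFinset.image (fun e => ({e} : Finset (Sym2 (Fin n)))))
    have h2 : ((univ.image E).filter (fun F => F.Nonempty)).card ≤ k := by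
      refine (card_filter_le _ _).trans ?_
      refine card_image_le.trans ?_
      simp
    have h3 : (J.edgeFinset.image (fun e => ({e} : Finset (Sym2 (Fin n))))).card ≤
      J.edgeFinset.card := card_image_le
    omega

/-- **The inequality of Q1 holds**: every `(2k+1)`-regular graph on `n ≥ 1` vertices satisfies
`re(G) ≤ n - 1`, i.e. it has a decomposition into at most `n - 1` subgraphs, each 2-regular or a
single edge.  More generally, if all degrees are odd and between `2a+1` and `2k+1` then
`re(G) ≤ n - 1 - a + k`. -/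
theorem result :
    (∀ (k n : ℕ) (G : SimpleGraph (Fin n)) [DecidableRel G.Adj], 1 ≤ n →
      G.IsRegularOfDegree (2 * k + 1) →
      re G ≤ n - 1 ∧ ∃ P, IsDecomp G P ∧ P.card ≤ n - 1) ∧
    (∀ (a k n : ℕ) (G : SimpleGraph (Fin n)) [DecidableRel G.Adj], 1 ≤ n →
      (∀ v, Odd (G.degree v) ∧ 2 * a + 1 ≤ G.degree v ∧ G.degree v ≤ 2 * k + 1) →
      (re G : ℤ) ≤ n - 1 - a + k) := by
  have key : ∀ (n : ℕ) (G : SimpleGraph (Fin n)) (P : Finset (Finset (Sym2 (Fin n)))),
      IsDecomp G P → re G ≤ P.card := fun n G P hP =>
    Nat.sInf_le (show P.card ∈ {m | ∃ P, IsDecomp G P ∧ P.card = m} from ⟨P, hP, rfl⟩)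
  refine ⟨fun k n G _ hn hreg => ?_, fun a k n G _ hn h => ?_⟩
  · obtain ⟨P, hP, hc⟩ := re_le hn G k k (fun v => by rw [hreg v]; exact ⟨k, rfl⟩)
      (fun v => (hreg v).ge) (fun v => (hreg v).le)
    have h1 := key n G P hP
    exact ⟨by omega, P, hP, by omega⟩
  · obtain ⟨P, hP, hc⟩ := re_le hn G a k (fun v => (h v).1) (fun v => (h v).2.1)
      (fun v => (h v).2.2)
    have h1 := key n G P hP
    omega

end final

end Pool.Agent.Results.MP_b4b0f8_co.OddRegular
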